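import Pool.Agent.H66.AccDefs
import Pool.Agent.H37.Gen

/-! A class without ACC whose isomorphism relation is not `Σ⁰₃`-complete. -/

namespace Pool.Agent.Results.MP_aec1d5_lc.Yes

open Pool.Agent.H66.Acc Pool.Agent.H37 Encodable Relation

theorem rtg_iff {α : Type} {R : α → α → Prop} {u v : α} : ReflTransGen R u v ↔
    ∃ l : List α, ∀ p ∈ (u :: l).zip (l ++ [v]), R p.1 p.2 ∨ p.1 = p.2 := by
  constructor
  · intro h
    induction h using ReflTransGen.head_induction_on with
    | refl => exact ⟨[], by simp⟩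
    | @head a c h _ ih =>
      obtain ⟨l, hl⟩ := ih
      refine ⟨c :: l, fun p hp => ?_⟩
      rcases List.mem_cons.1 hp with rfl | hp
      exacts [Or.inl h, hl p hp]
  · rintro ⟨l, hl⟩
    induction l generalizing u with
    | nil => rcases hl (u, v) (by simp) with h | h; exacts [.single h, (show u = v from h) ▸ .refl]
    | cons c l ih =>
      have := ih fun p hp => hl p (List.mem_cons_of_mem _ hp)
      rcases hl (u, c) List.mem_cons_self with h | h
      exacts [.head h this, (show u = c from h) ▸ this]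

theorem th_cons {e : ℕ} (c : Bool) {u v : List Bool} (h : theta e u v) :
    theta e (c :: u) (c :: v) := fun r hr => hr.1 c u v (h r hr)

theorem th_app {e : ℕ} (p : List Bool) {u v : List Bool} (h : theta e u v) :
    theta e (p ++ u) (p ++ v) := by
  induction p with
  | nil => exact h
  | cons c p ih => exact th_cons c ih

theorem th_law (e : ℕ) (c : Bool) (w : List Bool) : theta e (c :: true :: w) (true :: w) :=
  fun _ hr => hr.2.2 c w

theorem th_abs (e : ℕ) (p w : List Bool) : theta e (p ++ true :: w) (true :: w) := by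
  induction p with
  | nil => exact (theta e).refl _
  | cons c p ih => exact (theta e).trans (th_cons c ih) (th_law e c w)

def B (e : ℕ) (u v : List Bool) : Prop :=
  ∃ q : List Bool × List Bool × List Bool, (u = q.1 ++ q.2.1 ∧ v = q.1 ++ q.2.2) ∧
    ((∃ s, (ev e (encode q.2) s).isSome = true) ∨ q.2.1.tail = q.2.2 ∧ q.2.2.head? = some true)

theorem W_iff {e n : ℕ} : W e n ↔ ∃ s, (ev e n s).isSome = true := by
  simp only [W, Part.dom_iff_mem, ← ev_iff.symm, Option.isSome_iff_exists]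
  exact exists_comm

theorem th_iff {e : ℕ} {u v : List Bool} :
    theta e u v ↔ ReflTransGen (fun u v => B e u v ∨ B e v u) u v := by
  constructor
  · intro h
    refine h ⟨ReflTransGen fun u v => B e u v ∨ B e v u, fun _ => .refl, fun h => ?_, .trans⟩
      ⟨fun c x y h => ?_, fun u v h => .single (Or.inl ⟨([], u, v), ⟨rfl, rfl⟩,
        Or.inl (W_iff.1 h)⟩), fun c w => .single (Or.inl ⟨([], _, _), ⟨rfl, rfl⟩,
        Or.inr ⟨rfl, rfl⟩⟩)⟩
    · induction h with
      | refl => exact .refl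
      | tail _ h ih => exact .head h.symm ih
    · have k : ∀ u v, B e u v → B e (c :: u) (c :: v) := fun u v ⟨q, h1, h2⟩ =>
        ⟨(c :: q.1, q.2), by simp [h1.1, h1.2], h2⟩
      change ReflTransGen _ _ _ at h ⊢
      induction h with
      | refl => exact .refl
      | tail _ h ih => exact ih.tail (h.imp (k _ _) (k _ _))
  · have k : ∀ u v, B e u v → theta e u v := by
      rintro _ _ ⟨⟨p, u, v⟩, ⟨rfl, rfl⟩, h | ⟨h1, h2⟩⟩
      · exact th_app p fun r hr => hr.2.1 _ _ (W_iff.2 h)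
      · rcases u with _ | ⟨c, u⟩
        · cases h1; cases h2
        · cases h1
          obtain ⟨w, rfl⟩ := List.head?_eq_some_iff.1 h2
          exact th_app p (th_law e c w)
    intro h
    induction h with
    | refl => exact (theta e).refl _
    | tail _ h ih => exact (theta e).trans ih (h.elim (k _ _) fun h => (theta e).symm (k _ _ h))

theorem re_rtg {γ α : Type} [Primcodable γ] [Primcodable α] [DecidableEq α]
    {R : γ → α → α → Prop} (h : REPred fun q : γ × α × α => R q.1 q.2.1 q.2.2) :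
    REPred fun q : γ × α × α => ReflTransGen (R q.1) q.2.1 q.2.2 := by
  have h1 : REPred fun x : ((γ × α × α) × List α) × α × α =>
      R x.1.1.1 x.2.1 x.2.2 ∨ x.2.1 = x.2.2 :=
    re_or (REPred.comp' h (g := fun x : ((γ × α × α) × List α) × α × α => (x.1.1.1, x.2))
      (by fun_prop)) (re_of_bool (fun x => decide (x.2.1 = x.2.2)) (by fun_prop) (by simp))
  have h2 := re_forall_mem (p := fun (x : (γ × α × α) × List α) (p : α × α) =>
    R x.1.1 p.1 p.2 ∨ p.1 = p.2) h1 (l := fun x => (x.1.2.1 :: x.2).zip (x.2 ++ [x.1.2.2]))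
    (by fun_prop)
  exact (re_exists (p := fun (q : γ × α × α) (l : List α) => ∀ p ∈ (q.2.1 :: l).zip (l ++ [q.2.2]),
    R q.1 p.1 p.2 ∨ p.1 = p.2) h2).of_eq fun q => rtg_iff.symm

theorem re_B : REPred fun q : ℕ × List Bool × List Bool => B q.1 q.2.1 q.2.2 := by
  refine re_of_exists (fun q (x : (List Bool × List Bool × List Bool) × ℕ) =>
    (decide (q.2.1 = x.1.1 ++ x.1.2.1) && decide (q.2.2 = x.1.1 ++ x.1.2.2)) &&
    ((ev q.1 (encode x.1.2) x.2).isSome || (decide (x.1.2.1.tail = x.1.2.2) &&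
      decide (x.1.2.2.head? = some true)))) (by fun_prop) fun q => ?_
  simp only [B, Bool.and_eq_true, Bool.or_eq_true, decide_eq_true_eq]
  exact ⟨fun ⟨x, h1, h2⟩ => h2.elim (fun ⟨s, h⟩ => ⟨(x, s), h1, Or.inl h⟩)
    fun h => ⟨(x, 0), h1, Or.inr h⟩, fun ⟨x, h1, h2⟩ => ⟨x.1, h1, h2.imp_left fun h => ⟨_, h⟩⟩⟩

theorem re_th {α : Type} [Primcodable α] {e : α → ℕ} {u v : α → List Bool} (he : CI ∅ e)
    (hu : CI ∅ u) (hv : CI ∅ v) : REPred fun a => theta (e a) (u a) (v a) :=
  (REPred.comp' (re_rtg (R := fun e u v => B e u v ∨ B e v u) (re_or re_B (REPred.comp' re_B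
    (g := fun x : ℕ × List Bool × List Bool => (x.1, x.2.2, x.2.1)) (by fun_prop))))
    (g := fun a => (e a, u a, v a)) (by fun_prop)).of_eq fun _ => th_iff.symm

theorem iso_iff {i e : ℕ} : Iso i e ↔ ∃ w, (∃ t, theta e (t ++ w) []) ∧
    ∀ u v, theta i u v ↔ theta e (u ++ w) (v ++ w) := by
  constructor
  · rintro ⟨φ, h⟩
    obtain ⟨w, hw⟩ := Quotient.exists_rep (φ ⟦[]⟧)
    have k : ∀ u, φ ⟦u⟧ = ⟦u ++ w⟧ := fun u => by
      induction u with
      | nil => exact hw.symm
      | cons c u ih => exact (h c ⟦u⟧).trans (by rw [ih]; rfl)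
    obtain ⟨t, ht⟩ := Quotient.exists_rep (φ.symm ⟦[]⟧)
    refine ⟨w, ⟨t, Quotient.exact (by rw [← k, ht]; simp)⟩, fun u v => ?_⟩
    rw [← Quotient.eq, ← Quotient.eq, ← k, ← k, φ.apply_eq_iff_eq]
  · rintro ⟨w, ⟨t, ht⟩, h⟩
    refine ⟨Equiv.ofBijective (Quotient.map (· ++ w) fun u v => (h u v).1) ⟨?_, ?_⟩, ?_⟩
    · rintro ⟨u⟩ ⟨v⟩ k
      exact Quotient.sound ((h u v).2 (Quotient.exact k))
    · rintro ⟨u⟩
      exact ⟨⟦u ++ t⟧, Quotient.sound (by simpa using th_app u ht)⟩
    · rintro c ⟨u⟩; rfl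

theorem gens (e : ℕ) : ∃ p, ∀ w t, theta e (t ++ w) [] →
    ∃ m < p, theta e w (List.replicate m false) := by
  by_cases h : ∃ q, theta e (true :: q) []
  · obtain ⟨q, h⟩ := h
    exact ⟨1, fun w _ _ => ⟨0, one_pos, (theta e).trans ((theta e).symm
      (by simpa using th_app w h)) ((theta e).trans (th_abs e w q) h)⟩⟩
  have k : ∀ s, theta e s [] → ∀ c ∈ s, c = false := fun s hs c hc => by
    cases c
    · rfl
    · obtain ⟨p, q, rfl⟩ := List.append_of_mem hc
      exact absurd ⟨q, (theta e).trans ((theta e).symm (th_abs e p q)) hs⟩ h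
  by_cases h' : ∃ s ≠ [], theta e s []
  · obtain ⟨s, s0, hs⟩ := h'
    have p0 := List.length_pos_iff.2 s0
    refine ⟨s.length, fun w t hw => ?_⟩
    rw [(List.eq_replicate_iff (l := w)).2 ⟨rfl, fun c hc => k _ hw c (List.mem_append_right t hc)⟩]
    rw [(List.eq_replicate_iff (l := s)).2 ⟨rfl, k s hs⟩] at hs
    generalize w.length = n
    induction n using Nat.strong_induction_on with
    | _ n ih =>
      by_cases hn : n < s.length
      · exact ⟨n, hn, (theta e).refl _⟩
      · obtain ⟨m, h1, h2⟩ := ih (n - s.length) (by omega)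
        have := th_app (List.replicate (n - s.length) false) hs
        rw [List.replicate_append_replicate, Nat.sub_add_cancel (not_lt.1 hn), List.append_nil] at this
        exact ⟨m, h1, (theta e).trans this h2⟩
  · refine ⟨1, fun w t hw => ⟨0, one_pos, ?_⟩⟩
    have : t ++ w = [] := by_contra fun k => h' ⟨_, k, hw⟩
    rw [(List.append_eq_nil_iff.1 this).2]
    exact (theta e).refl _

def P2 (S : ℕ → Prop) : Prop := ∃ R : ℕ × ℕ → Prop, REPred R ∧ ∀ x, S x ↔ ∀ y, R (x, y)

theorem P2.bex {S : ℕ → ℕ → Prop} (h : ∀ m, P2 (S m)) (p : ℕ) : P2 fun x => ∃ m < p, S m x := by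
  induction p with
  | zero => exact ⟨fun _ => False, re_of_bool (fun _ => false) (by fun_prop) (by simp), by simp⟩
  | succ p ih =>
    obtain ⟨R, h1, h2⟩ := ih
    obtain ⟨Q, k1, k2⟩ := h p
    refine ⟨fun q => R (q.1, q.2.unpair.1) ∨ Q (q.1, q.2.unpair.2), re_or
      (REPred.comp' h1 (by fun_prop)) (REPred.comp' k1 (by fun_prop)), fun x => ?_⟩
    refine Nat.exists_lt_succ_right.trans ((or_congr (h2 x) (k2 x)).trans ?_)
    refine ⟨fun h y => h.imp (fun h => h _) fun h => h _, fun h => by_contra fun k => ?_⟩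
    push Not at k
    obtain ⟨⟨a, ha⟩, b, hb⟩ := k
    simpa [ha, hb] using h (Nat.pair a b)

theorem p2_iso {f : ℕ → ℕ} (hf : CI ∅ f) (e : ℕ) : P2 fun x => Iso (f x) e := by
  obtain ⟨p, hp⟩ := gens e
  have key : ∀ w, P2 fun x => (∃ t, theta e (t ++ w) []) ∧
      ∀ u v, theta (f x) u v ↔ theta e (u ++ w) (v ++ w) := fun w => by
    obtain ⟨D, d1, -, d2⟩ := re_stage (re_th (α := ℕ × List Bool × List Bool) (e := fun q => q.1)
      (u := fun q => q.2.1) (v := fun q => q.2.2) (by fun_prop) (by fun_prop) (by fun_prop))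
    have r1 : REPred fun q : (ℕ × ℕ) × List Bool × List Bool × ℕ =>
        (D (f q.1.1, q.2.1, q.2.2.1) q.2.2.2 = false ∨ theta e (q.2.1 ++ w) (q.2.2.1 ++ w)) ∧
        (D (e, q.2.1 ++ w, q.2.2.1 ++ w) q.2.2.2 = false ∨ theta (f q.1.1) q.2.1 q.2.2.1) :=
      re_and (re_or (re_of_bool (fun q => !D (f q.1.1, q.2.1, q.2.2.1) q.2.2.2) (CI.not
        (d1.comp (g := fun q : (ℕ × ℕ) × List Bool × List Bool × ℕ =>
          ((f q.1.1, q.2.1, q.2.2.1), q.2.2.2)) (by fun_prop))) (by simp))
        (re_th (by fun_prop) (by fun_prop) (by fun_prop)))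
        (re_or (re_of_bool (fun q => !D (e, q.2.1 ++ w, q.2.2.1 ++ w) q.2.2.2) (CI.not
        (d1.comp (g := fun q : (ℕ × ℕ) × List Bool × List Bool × ℕ =>
          ((e, q.2.1 ++ w, q.2.2.1 ++ w), q.2.2.2)) (by fun_prop))) (by simp))
        (re_th (by fun_prop) (by fun_prop) (by fun_prop)))
    have r2 : REPred fun q : ℕ × ℕ => ∃ t, theta e (t ++ w) [] :=
      re_exists (re_th (by fun_prop) (by fun_prop) (by fun_prop))
    have r3 := re_forall_mem (p := fun (q : ℕ × ℕ) (y : List Bool × List Bool × ℕ) =>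
        (D (f q.1, y.1, y.2.1) y.2.2 = false ∨ theta e (y.1 ++ w) (y.2.1 ++ w)) ∧
        (D (e, y.1 ++ w, y.2.1 ++ w) y.2.2 = false ∨ theta (f q.1) y.1 y.2.1)) r1
        (l := fun q => (decode q.2).toList) (by fun_prop)
    refine ⟨_, re_and r2 r3, fun x => ⟨fun ⟨h1, h2⟩ y => ⟨h1, fun ⟨u, v, s⟩ _ => ⟨?_, ?_⟩⟩,
      fun h => ⟨(h 0).1, fun u v => ⟨fun k => ?_, fun k => ?_⟩⟩⟩⟩
    · exact (Bool.eq_false_or_eq_true _).symm.imp_right fun k =>
        (h2 u v).1 ((d2 (f x, u, v)).2 ⟨s, k⟩)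
    · exact (Bool.eq_false_or_eq_true _).symm.imp_right fun k =>
        (h2 u v).2 ((d2 (e, u ++ w, v ++ w)).2 ⟨s, k⟩)
    · obtain ⟨s, hs⟩ := (d2 (f x, u, v)).1 k
      simpa [hs] using ((h (encode (u, v, s))).2 (u, v, s) (by simp)).1
    · obtain ⟨s, hs⟩ := (d2 (e, u ++ w, v ++ w)).1 k
      simpa [hs] using ((h (encode (u, v, s))).2 (u, v, s) (by simp)).2
  obtain ⟨R, h1, h2⟩ := P2.bex (fun m => key (List.replicate m false)) p
  refine ⟨R, h1, fun x => Iff.trans (iso_iff.trans ⟨?_, fun ⟨_, _, h⟩ => ⟨_, h⟩⟩) (h2 x)⟩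
  rintro ⟨w, ⟨t, ht⟩, h⟩
  obtain ⟨m, m1, m2⟩ := hp w t ht
  refine ⟨m, m1, ⟨t, (theta e).trans ((theta e).symm (th_app t m2)) ht⟩, fun u v => (h u v).trans
    ⟨fun k => (theta e).trans ((theta e).symm (th_app u m2)) ((theta e).trans k (th_app v m2)),
    fun k => (theta e).trans (th_app u m2) ((theta e).trans k ((theta e).symm (th_app v m2)))⟩⟩

def D (x : ℕ) : Prop := ∃ a : ℕ, ∀ s, (ev x (encode (x, a)) s).isSome = false

theorem not_p2 : ¬P2 D := by
  rintro ⟨R, h1, h2⟩
  obtain ⟨e, he⟩ := re_index h1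
  have := h2 e
  simp only [he, D] at this
  by_cases h : ∀ y : ℕ, ∃ s, (ev e (encode (e, y)) s).isSome = true
  · obtain ⟨a, ha⟩ := this.2 h
    obtain ⟨s, hs⟩ := h a
    rw [ha s] at hs; cases hs
  · exact h (this.1 (by simpa using h))

def val (k : ℕ) : List Bool → Bool × ℕ :=
  List.foldr (fun c x => if x.1 then x else if c then (true, x.2 - k) else (false, x.2 + 1)) (false, 0)

theorem val_succ (k : ℕ) (w : List Bool) :
    val (k + 1) w = if (val k w).1 then (true, (val k w).2 - 1) else val k w := by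
  induction w with
  | nil => rfl
  | cons c w ih =>
    simp only [val, List.foldr_cons] at ih ⊢
    rw [ih]
    generalize List.foldr _ _ w = x
    obtain ⟨b, n⟩ := x
    cases b <;> cases c <;> simp [Nat.sub_sub]

theorem val_rep (k n : ℕ) : val k (List.replicate n false) = (false, n) := by
  induction n with
  | zero => rfl
  | succ n ih => simp only [val, List.replicate_succ, List.foldr_cons] at ih ⊢; simp [ih]

theorem result : ¬ACC ∧ ¬Complete3 Iso := by
  constructor
  · obtain ⟨e, he⟩ := re_index (p := fun _ : List Bool × List Bool => False)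
      (re_of_bool (fun _ => false) (by fun_prop) (by simp))
    have c1 : ∀ k c u v, val k u = val k v → val k (c :: u) = val k (c :: v) := fun k c u v h => by
      simp only [val, List.foldr_cons] at h ⊢; rw [h]
    have le : ∀ k u v, theta e u v → val k u = val k v := fun k u v h =>
      h (Setoid.ker (val k)) ⟨c1 k, fun u v h => ((he _).2 (W_iff.1 h)).elim, fun c w => by
        show val k _ = val k _
        simp only [val, List.foldr_cons]
        generalize List.foldr _ _ w = x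
        obtain ⟨b, n⟩ := x
        cases b <;> simp⟩
    refine fun h => h e ⟨fun k => Setoid.ker (Quotient.lift (val k) (le k)),
      strictMono_nat_of_lt_succ fun k => lt_of_le_of_ne ?_ fun h => ?_, ?_⟩
    · rintro ⟨u⟩ ⟨v⟩ (h : val k u = val k v)
      show val (k + 1) u = val (k + 1) v
      rw [val_succ, val_succ, h]
    · have v1 : ∀ k n, val k (true :: List.replicate n false) = (true, n - k) := fun k n => by
        have := val_rep k n
        simp only [val, List.foldr_cons] at this ⊢; simp [this]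
      have : Setoid.ker (Quotient.lift (val (k + 1)) (le (k + 1)))
          ⟦true :: List.replicate (k + 1) false⟧ ⟦true :: List.replicate 0 false⟧ := by
        show val _ _ = val _ _
        rw [v1, v1]; simp
      rw [← h] at this
      have : val _ _ = val _ _ := this
      rw [v1, v1] at this
      simp at this
    · rintro k c ⟨u⟩ ⟨v⟩ h
      exact c1 k c u v h
  · rintro ⟨-, h⟩
    obtain ⟨d, hd⟩ : ∃ d, D d := by_contra fun k => not_p2
      ⟨fun _ => False, re_of_bool (fun _ => false) (by fun_prop) (by simp), by simpa using k⟩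
    obtain ⟨f, f1, f2⟩ := h (fun x y => x = y ∨ D x ∧ D y) ⟨fun _ => Or.inl rfl,
      fun h => h.imp .symm .symm, by
        rintro x y z (rfl | h) (rfl | k)
        exacts [Or.inl rfl, Or.inr k, Or.inr h, Or.inr ⟨h.1, k.2⟩]⟩
      ⟨_, computablePred_of (fun q : (ℕ × ℕ) × ℕ × ℕ × ℕ => decide (q.1.1 = q.1.2) ||
        (!(ev q.1.1 (encode (q.1.1, q.2.1.unpair.1)) q.2.2.1).isSome &&
        !(ev q.1.2 (encode (q.1.2, q.2.1.unpair.2)) q.2.2.1).isSome)) (by fun_prop)
        fun _ => Iff.rfl, fun x y => by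
          simp only [Bool.or_eq_true, decide_eq_true_eq, Bool.and_eq_true, Bool.not_eq_true',
            exists_const]
          refine ⟨fun h => h.elim (fun h => ⟨0, fun _ => Or.inl h⟩) fun ⟨⟨a, ha⟩, b, hb⟩ =>
            ⟨Nat.pair a b, fun s => Or.inr (by rw [Nat.unpair_pair]; exact ⟨ha s, hb s⟩)⟩, fun ⟨a, ha⟩ =>
            or_iff_not_imp_left.2 fun k => ⟨⟨_, fun s => ((ha s).resolve_left k).1⟩,
              _, fun s => ((ha s).resolve_left k).2⟩⟩⟩
    obtain ⟨R, h1, h2⟩ := p2_iso (CI.of_comp f1) (f d)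
    exact not_p2 ⟨R, h1, fun x => Iff.trans (Iff.trans
      ⟨fun h => Or.inr ⟨h, hd⟩, fun h => Or.elim h (fun k : x = d => k ▸ hd) (·.1)⟩ (f2 x d)) (h2 x)⟩

end Pool.Agent.Results.MP_aec1d5_lc.Yes
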